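import Mathlib

set_option autoImplicit false

namespace Pool.Agent.Results.MP_fb95e7_gt.Counter

open Set Filter Topology

universe u

variable {K : Type u} [TopologicalSpace K]

structure Skel {Γ : Type u} [PartialOrder Γ] (r : Γ → K → K) : Prop where
  ne : Nonempty Γ
  dir : IsDirectedOrder Γ
  sup : ∀ s : ℕ → Γ, Monotone s → ∃ t, IsLUB (range s) t
  retr : ∀ s, Continuous (r s) ∧ r s ∘ r s = r s
  metr : ∀ s, TopologicalSpace.MetrizableSpace (range (r s))
  comm : ∀ s t, s ≤ t → r s = r s ∘ r t ∧ r s = r t ∘ r s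
  lim : ∀ (s : ℕ → Γ) (t : Γ), StrictMono s → IsLUB (range s) t →
    ∀ x, Tendsto (fun n => r (s n) x) atTop (𝓝 (r t x))
  pt : ∀ x, Tendsto (fun s => r s x) atTop (𝓝 x)

def Sub {Λ Γ : Type u} [PartialOrder Λ] [PartialOrder Γ] (R : Λ → K → K) (r : Γ → K → K) : Prop :=
  ∃ Γ' : Set Γ, (∀ (s : ℕ → Γ) (t : Γ), Monotone s → (∀ n, s n ∈ Γ') → IsLUB (range s) t → t ∈ Γ') ∧
    (∀ s, ∃ t ∈ Γ', s ≤ t) ∧ ∃ φ : Λ ≃o Γ', ∀ i, R i = r (φ i)

lemma mono {Γ : Type u} [PartialOrder Γ] {r : Γ → K → K} (h : Skel r) {s : ℕ → Γ} {t : Γ}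
    (hs : Monotone s) (ht : IsLUB (range s) t) (x : K) :
    Tendsto (fun n => r (s n) x) atTop (𝓝 (r t x)) := by
  by_cases h1 : ∀ n, ∃ k, s n < s k
  · refine tendsto_of_subseq_tendsto fun ns h2 => ?_
    have h3 (n) : ∃ m, s (ns n) < s (ns m) := (h1 _).elim fun k hk =>
      (h2.eventually_ge_atTop k).exists.imp fun m hm => hk.trans_le (hs hm)
    choose f hf using h3
    have h4 : StrictMono fun n => s (ns (f^[n] 0)) :=
      strictMono_nat_of_lt_succ fun n => by rw [Function.iterate_succ_apply']; exact hf _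
    refine ⟨fun n => f^[n] 0, h.lim _ t h4 ⟨forall_mem_range.2 fun n => ht.1 (mem_range_self _),
      fun b hb => ht.2 (forall_mem_range.2 fun n => ?_)⟩ x⟩
    obtain ⟨m, hm⟩ := ((Function.Injective.of_comp (f := s) h4.injective).nat_tendsto_atTop
      |>.eventually_ge_atTop n).exists
    exact (hs hm).trans (hb (mem_range_self m))
  · push Not at h1
    obtain ⟨n, hn⟩ := h1
    have h2 (k) (hk : n ≤ k) : s k = s n := ((hs hk).eq_of_not_lt (hn k)).symm
    obtain rfl : s n = t := (ht.1 (mem_range_self n)).antisymm (ht.2 (forall_mem_range.2 fun k =>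
      (le_total k n).elim (hs ·) fun h => (h2 k h).le))
    exact tendsto_const_nhds.congr' ((eventually_ge_atTop n).mono fun k hk => congrArg (r · x) (h2 k hk).symm)

theorem result (K : Type u) [TopologicalSpace K] [CompactSpace K] [T2Space K] (Γ : Type u) [PartialOrder Γ]
    (r : Γ → K → K) (h : Skel r) : ∃ (Δ : Type u) (_ : PartialOrder Δ) (q : Δ → K → K), Skel q ∧
      ⋃ s, range (q s) = ⋃ s, range (r s) ∧
      ¬ ∃ (Λ : Type u) (_ : PartialOrder Λ) (R : Λ → K → K), Sub R r ∧ Sub R q := by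
  let C := {A : Set (Set (Γ × ℕ)) // A.Countable}
  have := h.ne
  have := h.dir
  have : Nonempty C := ⟨⟨∅, countable_empty⟩⟩
  have : IsDirectedOrder C := ⟨fun a b => ⟨⟨_, a.2.union b.2⟩, subset_union_left, subset_union_right⟩⟩
  refine ⟨Γ × C, inferInstance, fun s => r s.1, ⟨inferInstance, ⟨fun a b => (exists_ge_ge a.1 b.1).elim
    fun c h => (exists_ge_ge a.2 b.2).elim fun d h' => ⟨(c, d), ⟨h.1, h'.1⟩, h.2, h'.2⟩⟩, fun s hs => ?_,
    fun s => h.retr _, fun s => h.metr _, fun s t k => h.comm _ _ k.1, fun s t k1 k2 =>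
      mono h (monotone_fst.comp k1.monotone) (range_comp _ _ ▸ (isLUB_prod.1 k2).1),
    fun x => (h.pt x).comp (prod_atTop_atTop_eq (α := Γ) (β := C) ▸ tendsto_fst)⟩,
    Prod.fst_surjective.iUnion_comp fun s => range (r s), ?_⟩
  · obtain ⟨t, ht⟩ := h.sup _ (monotone_fst.comp hs)
    exact ⟨(t, ⟨_, countable_iUnion fun n => (s n).2.2⟩), forall_mem_range.2 fun n =>
      ⟨ht.1 (mem_range_self n), subset_iUnion (fun n => (s n).2.1) n⟩, fun b hb =>
      ⟨ht.2 (forall_mem_range.2 fun n => (hb (mem_range_self n)).1),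
        iUnion_subset fun n => (hb (mem_range_self n)).2⟩⟩
  rintro ⟨Λ, _, R, ⟨A, -, -, φ, -⟩, B, -, h1, ψ, -⟩
  choose e he using fun s : Γ × C => (s.2.2.insert ∅).exists_eq_range (insert_nonempty _ _)
  classical
  refine Function.cantor_surjective (fun p : Γ × ℕ =>
    if k : p.1 ∈ A then e (ψ (φ.symm ⟨p.1, k⟩)) p.2 else ∅) fun a => ?_
  obtain ⟨t, h2, h3⟩ := h1 (Classical.arbitrary Γ, ⟨{a}, countable_singleton a⟩)
  obtain ⟨n, hn⟩ : a ∈ range (e t) := he t ▸ Or.inr (h3.2 rfl)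
  exact ⟨(φ (ψ.symm ⟨t, h2⟩), n), by simp [hn]⟩

end Pool.Agent.Results.MP_fb95e7_gt.Counter
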